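import Pool.Agent.W250.RS.Stm2

/-!
Part NUM of project RS2: the inequality of exponents.
-/

set_option autoImplicit false

namespace Pool.Agent.W816.RS2

open Pool.Agent.W250.RS

lemma inner_pos (a d u w : ℤ) (ha : 1 ≤ a) (hd : 0 ≤ d) (hu : a ≤ u) (hw : 1 ≤ w)
    (h0 : d = 0 → w = 1) (h1 : d = 1 → w = 2) :
    0 ≤ 3 * u * w * d - 2 * (a + d) * w + 2 * a + d := by
  rcases eq_or_lt_of_le hd with hd0 | hd0
  · rw [h0 hd0.symm, ← hd0]
    linarith
  · have hd1 : 1 ≤ d := hd0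
    have h2 : 3 * a * w * d ≤ 3 * u * w * d := by
      have : 0 ≤ (u - a) * (w * d) := mul_nonneg (by linarith) (by positivity)
      nlinarith [this]
    rcases eq_or_lt_of_le hd1 with hd2 | hd2
    · have hw2 := h1 hd2.symm
      subst hw2
      rw [← hd2] at h2 ⊢
      nlinarith
    · have hd2' : 2 ≤ d := hd2
      have h3 : 0 ≤ 3 * a * d - 2 * a - 2 * d := by
        nlinarith [mul_nonneg (by linarith : (0:ℤ) ≤ a - 1) (by linarith : (0:ℤ) ≤ d - 2)]
      have h4 : 0 ≤ w * (3 * a * d - 2 * a - 2 * d) := mul_nonneg (by linarith) h3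
      nlinarith [h2, h4]

theorem num : S_NUM := by
  intro k t hk htk
  obtain ⟨d, rfl⟩ := Nat.exists_eq_add_of_le htk
  have e1 : t + 1 + d - 1 = t + d := by omega
  rw [e1]
  have e2 : 2 ^ (t + 1 + d) = 2 * (2 ^ t * 2 ^ d) := by ring
  have e3 : 2 ^ (t + d) = 2 ^ t * 2 ^ d := by ring
  rw [e2, e3]
  have hu : t + 1 ≤ 2 ^ t := Nat.lt_two_pow_self
  have hw : 1 ≤ 2 ^ d := Nat.one_le_two_pow
  have h0 : d = 0 → 2 ^ d = 1 := by rintro rfl; rfl
  have h1 : d = 1 → 2 ^ d = 2 := by rintro rfl; rfl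
  generalize 2 ^ t = u at *
  generalize 2 ^ d = w at *
  have hup : 1 ≤ u := by omega
  have huw : 1 ≤ 3 * (u * w) := by
    have : 1 ≤ u * w := Nat.one_le_iff_ne_zero.mpr (by positivity)
    omega
  have hu3 : 1 ≤ 3 * u := by omega
  have key := inner_pos ((t : ℤ) + 1) (d : ℤ) (u : ℤ) (w : ℤ) (by omega)
    (by positivity) (by exact_mod_cast hu) (by exact_mod_cast hw)
    (by intro h; exact_mod_cast h0 (by exact_mod_cast h))
    (by intro h; exact_mod_cast h1 (by exact_mod_cast h))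
  zify [huw, hu3]
  have hfac : (0 : ℤ) ≤ (u : ℤ) * (3 * (u : ℤ) * w * d - 2 * ((t : ℤ) + 1 + d) * w +
      2 * ((t : ℤ) + 1) + d) := mul_nonneg (by positivity) key
  nlinarith [hfac]

end Pool.Agent.W816.RS2
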